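import Mathlib

/-!
# A maximal sum-free set with 28 elements in `(ℤ/2)^8`
-/

set_option autoImplicit false

open Finset

namespace Pool.Agent.N329.Shelf.SmallMaximalSumFree

/-- `A` is sum-free: there are no `a, b ∈ A` (not necessarily distinct) with `a + b ∈ A`. -/
def IsSumFree {G : Type} [AddCommGroup G] (A : Set G) : Prop :=
  ∀ a ∈ A, ∀ b ∈ A, a + b ∉ A

/-- `A` is a maximal sum-free set. -/
def IsMaximalSumFree {G : Type} [AddCommGroup G] (A : Set G) : Prop :=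
  IsSumFree A ∧ ∀ g : G, g ∉ A → ¬ IsSumFree (A ∪ {g})

/-- The set of the cardinalities of the maximal sum-free sets of `(ℤ/2)^r`. -/
def sizes (r : ℕ) : Set ℕ :=
  {k | ∃ A : Set (Fin r → ZMod 2), IsMaximalSumFree A ∧ A.ncard = k}

/-- `v` is the `i`-th largest cardinality of a maximal sum-free set of `(ℤ/2)^r`. -/
def IsIthLargest (r i v : ℕ) : Prop :=
  v ∈ sizes r ∧ {k | k ∈ sizes r ∧ v < k}.ncard + 1 = i

/-- The conjecture of Q1. -/
def Conjecture : Prop :=
  ∀ r : ℕ, 4 ≤ r →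
    (∀ i : ℕ, 2 ≤ i → i ≤ r - 2 → IsIthLargest r i (2 ^ (r - 2) + 2 ^ (r - 2 - i))) ∧
    IsLeast (sizes r) (2 ^ ((r + 1) / 2) + 2 ^ (r / 2) - 3)

/-- the vector with the binary digits of `x` -/
def dec (x : ℕ) : Fin 8 → ZMod 2 := fun i => if x.testBit i then 1 else 0

/-- the number with the binary digits `f` -/
def enc (f : Fin 8 → ZMod 2) : ℕ :=
  (f 0).val + 2 * (f 1).val + 4 * (f 2).val + 8 * (f 3).val + 16 * (f 4).val + 32 * (f 5).val +
    64 * (f 6).val + 128 * (f 7).val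

/-- the 28 elements -/
def L : List ℕ := [1, 121, 11, 115, 151, 203, 255, 163, 46, 76, 143, 223, 22, 116, 148, 230, 158,
  236, 30, 42, 118, 66, 177, 217, 12, 100, 183, 50]

lemma dec_xor (a b : ℕ) : dec (a ^^^ b) = dec a + dec b := by
  ext i
  simp only [dec, Nat.testBit_xor, Pi.add_apply]
  cases a.testBit i <;> cases b.testBit i <;> decide

lemma enc_lt (f : Fin 8 → ZMod 2) : enc f < 256 := by
  unfold enc
  have h : ∀ i, (f i).val < 2 := fun i => ZMod.val_lt (f i)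
  have h0 := h 0
  have h1 := h 1
  have h2 := h 2
  have h3 := h 3
  have h4 := h 4
  have h5 := h 5
  have h6 := h 6
  have h7 := h 7
  omega

lemma dec_enc (f : Fin 8 → ZMod 2) : dec (enc f) = f := by
  have key : ∀ a0 a1 a2 a3 a4 a5 a6 a7 : ZMod 2,
      dec (a0.val + 2 * a1.val + 4 * a2.val + 8 * a3.val + 16 * a4.val + 32 * a5.val +
        64 * a6.val + 128 * a7.val) = ![a0, a1, a2, a3, a4, a5, a6, a7] := by
    decide +kernel
  unfold enc
  rw [key]
  ext i
  fin_cases i <;> rfl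

lemma check1 : ∀ a ∈ L, ∀ b ∈ L, a ^^^ b ∉ L := by decide +kernel

lemma check2 : ∀ g : Fin 256, (g : ℕ) ∈ L ∨ ∃ a ∈ L, (a ^^^ (g : ℕ)) ∈ L := by decide +kernel

lemma check3 : ∀ a ∈ L, enc (dec a) = a := by decide +kernel

lemma check4 : L.Nodup := by decide +kernel

/-- the set -/
def S : Set (Fin 8 → ZMod 2) := {f | ∃ a ∈ L, dec a = f}

lemma mem_S_dec {x : ℕ} (hx : x < 256) (h : dec x ∈ S) : x ∈ L := by
  obtain ⟨a, ha, hax⟩ := h
  have h1 : ∀ y : Fin 256, enc (dec (y : ℕ)) = y := by decide +kernel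
  have h2 := h1 ⟨x, hx⟩
  simp only at h2
  rw [← hax, check3 a ha] at h2
  rw [← h2]
  exact ha

lemma S_sumFree : IsSumFree S := by
  rintro _ ⟨a, ha, rfl⟩ _ ⟨b, hb, rfl⟩ ⟨c, hc, hcab⟩
  have h := check1 a ha b hb
  apply h
  have hlt : ∀ a ∈ L, ∀ b ∈ L, a ^^^ b < 256 := by decide +kernel
  apply mem_S_dec (hlt a ha b hb)
  exact ⟨c, hc, by rw [hcab, dec_xor]⟩

lemma S_maximal : IsMaximalSumFree S := by
  refine ⟨S_sumFree, ?_⟩
  intro g hg hfree
  obtain h | ⟨a, ha, hag⟩ := check2 ⟨enc g, enc_lt g⟩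
  · apply hg
    exact ⟨enc g, h, dec_enc g⟩
  · simp only at hag
    have h1 : dec (a ^^^ enc g) = dec a + g := by rw [dec_xor, dec_enc]
    have h2 : dec a + (dec a + g) = g := by
      rw [← add_assoc, CharTwo.add_self_eq_zero, zero_add]
    apply hfree (dec a) (Or.inl ⟨a, ha, rfl⟩) (dec a + g) (Or.inl ⟨_, hag, h1⟩)
    rw [h2]
    exact Or.inr rfl

lemma S_ncard : S.ncard = 28 := by
  have h : S = ((L.toFinset.image dec : Finset (Fin 8 → ZMod 2)) : Set (Fin 8 → ZMod 2)) := by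
    ext f
    simp [S]
  rw [h, Set.ncard_coe_finset, card_image_of_injOn, List.toFinset_card_of_nodup check4]
  · rfl
  · intro a ha b hb hab
    simp only [List.coe_toFinset, Set.mem_ofPred_eq] at ha hb
    rw [← check3 a ha, ← check3 b hb, hab]

/-- **Theorem.** The group `(ℤ/2)^8` has a maximal sum-free set with `28` elements, fewer than
`2^4 + 2^4 - 3 = 29`; hence the conjecture is false. -/
theorem result : (∃ A : Set (Fin 8 → ZMod 2), IsMaximalSumFree A ∧ A.ncard = 28) ∧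
    ¬ Conjecture := by
  refine ⟨⟨S, S_maximal, S_ncard⟩, ?_⟩
  intro h
  have h1 := (h 8 (by norm_num)).2
  have h2 : (28 : ℕ) ∈ sizes 8 := ⟨S, S_maximal, S_ncard⟩
  have h3 := h1.2 h2
  norm_num at h3

end Pool.Agent.N329.Shelf.SmallMaximalSumFree
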